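import Mathlib

/-!
# Cuntz subequivalence
-/

set_option autoImplicit false
set_option linter.style.haveILetI false
set_option linter.unusedSectionVars false

open scoped ComplexOrder Pointwise

namespace Pool.Agent.V11109.CX

/-- Cuntz subequivalence `a ≾ b` in a C*-algebra: there are `r n` with `r n * b * (r n)^* → a`. -/
def CuntzSub {B : Type} [CStarAlgebra B] (a b : B) : Prop :=
  ∀ ε : ℝ, 0 < ε → ∃ r : B, ‖r * b * star r - a‖ < ε

section

variable {B : Type} [CStarAlgebra B]

lemma cuntzSub_conj (b r : B) : CuntzSub (r * b * star r) b :=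
  fun ε hε => ⟨r, by rw [sub_self, norm_zero]; exact hε⟩

lemma CuntzSub.trans {a b c : B} (h1 : CuntzSub a b) (h2 : CuntzSub b c) : CuntzSub a c := by
  intro ε hε
  obtain ⟨r, hr⟩ := h1 (ε / 2) (by positivity)
  obtain ⟨s, hs⟩ := h2 (ε / 2 / (‖r‖ ^ 2 + 1)) (by positivity)
  refine ⟨r * s, ?_⟩
  have e1 : r * s * c * star (r * s) - a = r * (s * c * star s - b) * star r
      + (r * b * star r - a) := by
    rw [star_mul, mul_sub, sub_mul]
    simp only [mul_assoc]
    abel
  rw [e1]
  have h3 : ‖r * (s * c * star s - b) * star r‖ ≤ ε / 2 := by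
    calc ‖r * (s * c * star s - b) * star r‖ ≤ ‖r * (s * c * star s - b)‖ * ‖star r‖ :=
          norm_mul_le _ _
      _ ≤ ‖r‖ * ‖s * c * star s - b‖ * ‖r‖ := by
          rw [norm_star]; gcongr; exact norm_mul_le _ _
      _ ≤ ‖r‖ * (ε / 2 / (‖r‖ ^ 2 + 1)) * ‖r‖ := by gcongr
      _ = (ε / 2) * (‖r‖ ^ 2 / (‖r‖ ^ 2 + 1)) := by ring
      _ ≤ (ε / 2) * 1 := by
          gcongr
          rw [div_le_one (by positivity)]
          linarith
      _ = ε / 2 := mul_one _
  linarith [norm_add_le (r * (s * c * star s - b) * star r) (r * b * star r - a)]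

lemma CuntzSub.map {C : Type} [CStarAlgebra C] (φ : B →⋆ₐ[ℂ] C) {a b : B} (h : CuntzSub a b) :
    CuntzSub (φ a) (φ b) := by
  intro ε hε
  obtain ⟨r, hr⟩ := h ε hε
  refine ⟨φ r, ?_⟩
  rw [← map_star, ← map_mul, ← map_mul, ← map_sub]
  exact (NonUnitalStarAlgHom.norm_apply_le φ _).trans_lt hr

variable [PartialOrder B] [StarOrderedRing B]

theorem cuntzSub_of_le {p q : B} (hp : 0 ≤ p) (hpq : p ≤ q) : CuntzSub p q := by
  intro ε hε
  have hq : 0 ≤ q := hp.trans hpq
  set Q : B := q + algebraMap ℝ B (ε / 2) with hQ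
  have hε2 : 0 < ε / 2 := by positivity
  have hpos : IsStrictlyPositive (algebraMap ℝ B (ε / 2)) := by
    refine ⟨?_, (isUnit_iff_ne_zero.mpr hε2.ne').map (algebraMap ℝ B)⟩
    rw [Algebra.algebraMap_eq_smul_one]
    exact smul_nonneg hε2.le zero_le_one
  have hQpos : IsStrictlyPositive Q := IsStrictlyPositive.nonneg_add hq hpos
  have hpQ : p ≤ Q := hpq.trans (le_add_of_nonneg_right hpos.nonneg)
  have hn := (le_iff_norm_sqrt_mul_rpow p Q hp hQpos).mp hpQ
  set R : B := Q ^ (-(1 / 2) : ℝ) with hR
  have hRs : star R = R := (IsSelfAdjoint.of_nonneg CFC.rpow_nonneg).star_eq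
  have hsq : star (CFC.sqrt p) = CFC.sqrt p := (IsSelfAdjoint.of_nonneg (CFC.sqrt_nonneg p)).star_eq
  have hRQ : R * Q * R = 1 := CFC.conjugate_rpow_neg_one_half Q hQpos
  refine ⟨CFC.sqrt p * R, ?_⟩
  have e1 : CFC.sqrt p * R * Q * star (CFC.sqrt p * R) = p := by
    rw [star_mul, hRs, hsq]
    calc CFC.sqrt p * R * Q * (R * CFC.sqrt p) = CFC.sqrt p * (R * Q * R) * CFC.sqrt p := by
          simp only [mul_assoc]
      _ = p := by rw [hRQ, mul_one, CFC.sqrt_mul_sqrt_self p hp]
  have e2 : CFC.sqrt p * R * q * star (CFC.sqrt p * R) - p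
      = - ((ε / 2) • ((CFC.sqrt p * R) * star (CFC.sqrt p * R))) := by
    have e3 : q = Q - algebraMap ℝ B (ε / 2) := by rw [hQ, add_sub_cancel_right]
    rw [e3, mul_sub, sub_mul, e1, Algebra.algebraMap_eq_smul_one, mul_smul_comm, mul_one,
      smul_mul_assoc]
    abel
  rw [e2, norm_neg, norm_smul, Real.norm_of_nonneg (by positivity)]
  calc ε / 2 * ‖CFC.sqrt p * R * star (CFC.sqrt p * R)‖ ≤ ε / 2 * (1 * 1) := by
        gcongr
        refine (norm_mul_le _ _).trans ?_
        rw [norm_star]
        exact mul_le_mul hn hn (norm_nonneg _) zero_le_one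
    _ < ε := by linarith

/-- positive elements near `a₀` dominate a fixed nonzero element -/
theorem exists_lower {a₀ : B} (h0 : 0 ≤ a₀) (hne : a₀ ≠ 0) :
    ∃ b₀ : B, 0 ≤ b₀ ∧ b₀ ≠ 0 ∧ ∃ δ : ℝ, 0 < δ ∧ ∀ y : B, 0 ≤ y → ‖y - a₀‖ < δ →
      CuntzSub b₀ y := by
  have hn : 0 < ‖a₀‖ := norm_pos_iff.mpr hne
  set δ : ℝ := ‖a₀‖ / 4 with hδ
  have hδ0 : 0 < δ := by positivity
  set g : ℝ → ℝ := fun t => max (t - 2 * δ) 0 with hg
  have hgc : Continuous g := by fun_prop
  have hsa : IsSelfAdjoint a₀ := IsSelfAdjoint.of_nonneg h0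
  set e : B := cfc g a₀ with he
  have hesa : IsSelfAdjoint e := cfc_predicate g a₀
  have hestar : star e = e := hesa.star_eq
  -- `e` is nonzero
  have hle : a₀ ≤ algebraMap ℝ B (2 * δ) + e := by
    have h1 : algebraMap ℝ B (2 * δ) + e - a₀ = cfc (fun t => 2 * δ + g t - t) a₀ := by
      rw [cfc_sub (fun t => 2 * δ + g t) (fun t => t) a₀ (by fun_prop) (by fun_prop),
        cfc_const_add (2 * δ) g a₀ (by fun_prop), cfc_id' ℝ a₀]
    rw [← sub_nonneg, h1]
    apply cfc_nonneg
    intro t _
    have := le_max_left (t - 2 * δ) 0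
    simp only [hg]
    linarith
  have hene : e ≠ 0 := by
    intro h
    rw [h, add_zero] at hle
    have h1 : ‖a₀‖ ≤ 2 * δ := (CStarAlgebra.norm_le_iff_le_algebraMap a₀ (by positivity) h0).mpr hle
    rw [hδ] at h1
    linarith
  -- the main inequality
  have hmain : algebraMap ℝ B (2 * δ) * (e * e) ≤ e * a₀ * e := by
    have h1 : e * a₀ * e - algebraMap ℝ B (2 * δ) * (e * e)
        = cfc (fun t => g t * t * g t - 2 * δ * (g t * g t)) a₀ := by
      rw [cfc_sub (fun t => g t * t * g t) (fun t => 2 * δ * (g t * g t)) a₀ (by fun_prop)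
        (by fun_prop), cfc_mul (fun t => g t * t) g a₀ (by fun_prop) (by fun_prop),
        cfc_mul g (fun t => t) a₀ (by fun_prop) (by fun_prop), cfc_id' ℝ a₀,
        cfc_const_mul (2 * δ) (fun t => g t * g t) a₀ (by fun_prop),
        cfc_mul g g a₀ (by fun_prop) (by fun_prop), Algebra.algebraMap_eq_smul_one, smul_mul_assoc,
        one_mul]
    rw [← sub_nonneg, h1]
    apply cfc_nonneg
    intro t _
    simp only [hg]
    rcases le_total (t - 2 * δ) 0 with h2 | h2
    · rw [max_eq_right h2]; simp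
    · rw [max_eq_left h2]
      nlinarith [mul_nonneg (mul_nonneg h2 h2) h2]
  have hee : 0 ≤ e * e := by
    have := star_mul_self_nonneg e
    rwa [hestar] at this
  refine ⟨δ • (e * e), smul_nonneg hδ0.le hee, ?_, δ, hδ0, ?_⟩
  · intro h
    rcases smul_eq_zero.mp h with h | h
    · exact hδ0.ne' h
    · have h2 : star e * e = 0 := by rw [hestar]; exact h
      exact hene ((CStarRing.star_mul_self_eq_zero_iff e).mp h2)
  · intro y hy hya
    have hysa : IsSelfAdjoint (y - a₀) := (IsSelfAdjoint.of_nonneg hy).sub hsa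
    have h1 : - algebraMap ℝ B ‖y - a₀‖ ≤ y - a₀ := hysa.neg_algebraMap_norm_le_self
    have h2 : a₀ - algebraMap ℝ B δ ≤ y := by
      have h3 : algebraMap ℝ B ‖y - a₀‖ ≤ algebraMap ℝ B δ := algebraMap_mono B hya.le
      have h4 : - algebraMap ℝ B δ ≤ y - a₀ := (neg_le_neg h3).trans h1
      have h5 := add_le_add_left h4 a₀
      calc a₀ - algebraMap ℝ B δ = - algebraMap ℝ B δ + a₀ := by abel
        _ ≤ y - a₀ + a₀ := by simpa using h5
        _ = y := sub_add_cancel _ _
    have h6 : e * (a₀ - algebraMap ℝ B δ) * e ≤ e * y * e := by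
      have := star_left_conjugate_le_conjugate h2 e
      rwa [hestar] at this
    have h7 : δ • (e * e) ≤ e * y * e := by
      refine le_trans ?_ h6
      have h8 : e * (a₀ - algebraMap ℝ B δ) * e = e * a₀ * e - δ • (e * e) := by
        rw [mul_sub, sub_mul, Algebra.algebraMap_eq_smul_one, mul_smul_comm, mul_one,
          smul_mul_assoc]
      rw [h8, le_sub_iff_add_le, ← add_smul]
      rw [Algebra.algebraMap_eq_smul_one, smul_mul_assoc, one_mul, two_mul] at hmain
      exact hmain
    refine (cuntzSub_of_le (smul_nonneg hδ0.le hee) h7).trans ?_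
    have := cuntzSub_conj y e
    rwa [hestar] at this

/-- in a simple unital C*-algebra nonzero positive elements are full -/
theorem exists_full [IsSimpleRing B] {b : B} (hb : 0 ≤ b) (hne : b ≠ 0) :
    ∃ (n : ℕ) (c : Fin n → B), ∑ i, c i * b * star (c i) = 1 := by
  -- algebraic fullness
  have h1 : (1 : B) ∈ TwoSidedIdeal.span {b} :=
    IsSimpleRing.one_mem_of_ne_zero_mem _ hne (TwoSidedIdeal.subset_span rfl)
  rw [TwoSidedIdeal.mem_span_iff_mem_addSubgroup_closure] at h1
  have h2 : ∀ z ∈ AddSubgroup.closure (Set.univ * {b} * Set.univ : Set B),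
      ∃ l : List (B × B), (l.map fun p => p.1 * b * p.2).sum = z := by
    intro z hz
    induction hz using AddSubgroup.closure_induction with
    | mem x hx =>
      obtain ⟨_, ⟨x, -, _, rfl, rfl⟩, y, -, rfl⟩ := hx
      exact ⟨[(x, y)], by simp⟩
    | zero => exact ⟨[], rfl⟩
    | add x y _ _ h3 h4 =>
      obtain ⟨l, rfl⟩ := h3
      obtain ⟨m, rfl⟩ := h4
      exact ⟨l ++ m, by simp⟩
    | neg x _ h3 =>
      obtain ⟨l, rfl⟩ := h3
      refine ⟨l.map fun p => (-p.1, p.2), ?_⟩
      rw [List.map_map]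
      have h4 : ∀ m : List (B × B), (m.map ((fun p => p.1 * b * p.2) ∘ fun p => (-p.1, p.2))).sum
          = -(m.map fun p => p.1 * b * p.2).sum := by
        intro m
        induction m with
        | nil => simp
        | cons p m ih =>
          simp only [List.map_cons, List.sum_cons, Function.comp_apply, neg_mul, neg_add] at ih ⊢
          rw [ih]
      exact h4 l
  obtain ⟨l, hl⟩ := h2 1 h1
  -- symmetrize
  have h3 : ∀ x y : B, x * b * y + star (x * b * y) ≤ x * b * star x + star y * b * y := by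
    intro x y
    have h4 : 0 ≤ (x - star y) * b * star (x - star y) := star_right_conjugate_nonneg hb _
    have h5 : (x - star y) * b * star (x - star y)
        = x * b * star x + star y * b * y - (x * b * y + star (x * b * y)) := by
      rw [star_sub, star_star, star_mul, star_mul, (IsSelfAdjoint.of_nonneg hb).star_eq]
      noncomm_ring
    rw [h5] at h4
    exact sub_nonneg.mp h4
  have h4 : ∀ l : List (B × B), (l.map fun p => p.1 * b * p.2).sum
      + star (l.map fun p => p.1 * b * p.2).sum
      ≤ (l.map fun p => p.1 * b * star p.1 + star p.2 * b * p.2).sum := by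
    intro l
    induction l with
    | nil => simp
    | cons p l ih =>
      simp only [List.map_cons, List.sum_cons, star_add]
      calc _ = (p.1 * b * p.2 + star (p.1 * b * p.2)) + ((l.map fun p => p.1 * b * p.2).sum
          + star (l.map fun p => p.1 * b * p.2).sum) := by abel
        _ ≤ _ := add_le_add (h3 _ _) ih
  set T : B := (l.map fun p => p.1 * b * star p.1 + star p.2 * b * p.2).sum with hT
  have h5 : (1 : B) + 1 ≤ T := by
    have := h4 l
    rwa [hl, star_one] at this
  have hone : (0 : B) ≤ 1 := zero_le_one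
  have h6 : IsStrictlyPositive T := by
    have h7 : IsStrictlyPositive (1 : B) := ⟨hone, isUnit_one⟩
    refine ⟨le_trans (add_nonneg hone hone) h5, ?_⟩
    exact CStarAlgebra.isUnit_of_le 1 ((le_add_of_nonneg_right hone).trans h5) h7
  set R : B := T ^ (-(1 / 2) : ℝ) with hR
  have hRs : star R = R := (IsSelfAdjoint.of_nonneg CFC.rpow_nonneg).star_eq
  have hRQ : R * T * R = 1 := CFC.conjugate_rpow_neg_one_half T h6
  -- the list of the elements
  let m : List B := (l.map fun p => R * p.1) ++ (l.map fun p => R * star p.2)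
  have h8 : (m.map fun c => c * b * star c).sum = 1 := by
    rw [← hRQ, hT]
    simp only [m, List.map_append, List.sum_append, List.map_map]
    clear_value R
    clear hT h5 h6 hRQ hR
    clear hl m T
    induction l with
    | nil => simp
    | cons p l ih =>
      simp only [List.map_cons, List.sum_cons, Function.comp_apply, mul_add, add_mul] at ih ⊢
      have e1 : ∀ c : B, R * c * b * star (R * c) = R * (c * b * star c) * R := by
        intro c
        rw [star_mul, hRs]
        simp only [mul_assoc]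
      rw [e1, e1, star_star]
      calc _ = (R * (p.1 * b * star p.1) * R + R * (star p.2 * b * p.2) * R) +
          ((l.map ((fun c => c * b * star c) ∘ fun p => R * p.1)).sum
            + (l.map ((fun c => c * b * star c) ∘ fun p => R * star p.2)).sum) := by abel
        _ = _ := by rw [ih]
  refine ⟨m.length, fun i => m.get i, ?_⟩
  rw [← h8]
  have := List.sum_ofFn (f := fun i => m.get i * b * star (m.get i))
  rw [← this]
  congr 1
  apply List.ext_get
  · simp
  · intro n h1 h2
    simp
end

end Pool.Agent.V11109.CX
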