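import Pool.Agent.V11109.CX.Finite

/-!
# The dichotomy, and the example of the matrix algebra over a point
-/

set_option autoImplicit false
set_option linter.style.haveILetI false
set_option linter.unusedSectionVars false

open scoped ComplexOrder Pointwise Topology
open Filter

namespace Pool.Agent.V11109.CX

/-- the standing assumptions of the problem -/
structure Setting {X : Type} [MetricSpace X] [CompactSpace X] {D : Type} [CStarAlgebra D]
    {G : Type} [Group G] [MulAction G X] (α : G →* (C(X, D) ≃⋆ₐ[ℂ] C(X, D)))
    (β : G → X → (D ≃⋆ₐ[ℂ] D)) : Prop where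
  /-- `D` is simple -/
  simple : IsSimpleRing D
  /-- `G` acts by homeomorphisms -/
  cont : ∀ g : G, Continuous fun x : X => g • x
  /-- the action is minimal -/
  minimal : ∀ x : X, Dense (MulAction.orbit G x)
  /-- the action is essentially free -/
  essFree : ∀ S : Finset G, 1 ∉ S → Dense {x : X | ∀ g ∈ S, g • x ≠ x}
  /-- the action `α` lies over the action on `X` -/
  liesOver : LiesOver α β
  /-- the action `α` is pseudoperiodically generated -/
  pseudoperiodic : Pseudoperiodic {γ | ∃ g x, γ = β g x}

theorem dichotomy {X : Type} [MetricSpace X] [CompactSpace X] [Nonempty X] {D : Type}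
    [CStarAlgebra D] {G : Type} [Group G] [MulAction G X] {α : G →* (C(X, D) ≃⋆ₐ[ℂ] C(X, D))}
    {β : G → X → (D ≃⋆ₐ[ℂ] D)} (hS : Setting α β) {A : Type} [CStarAlgebra A]
    {ι : C(X, D) →⋆ₐ[ℂ] A} {u : G → A} (hA : IsReducedCrossedProduct α ι u) :
    DominatesFunction ι ↔ (Infinite X ∨ ∀ d : D, IsPos d → d ≠ 0 → CuntzSub 1 d) := by
  haveI := hS.simple
  by_cases hX : Infinite X
  · exact ⟨fun _ => Or.inl hX, fun _ a ha hne =>
      main hS.liesOver hA.covariant hS.cont hS.minimal hS.pseudoperiodic ha hne⟩
  · haveI : Finite X := not_infinite_iff_finite.mp hX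
    haveI : DiscreteTopology X := inferInstance
    have htrans : ∀ x y : X, ∃ g : G, g • x = y := by
      intro x y
      have h1 : y ∈ closure (MulAction.orbit G x) := hS.minimal x y
      rw [(Set.toFinite _).isClosed.closure_eq] at h1
      exact h1
    have hfree : ∀ x : X, ∀ g : G, g ≠ 1 → g • x ≠ x := by
      intro x g hg
      have h1 : x ∈ closure {x : X | ∀ k ∈ ({g} : Finset G), k • x ≠ x} :=
        hS.essFree {g} (by simpa using hg.symm) x
      rw [(Set.toFinite _).isClosed.closure_eq] at h1
      exact h1 g (Finset.mem_singleton_self g)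
    obtain ⟨x₀⟩ := ‹Nonempty X›
    constructor
    · intro h
      right
      exact one_of_dominates hS.liesOver hA htrans (hfree x₀) h
    · rintro (h | h)
      · exact absurd h hX
      · exact dominates_of_one h

/-- the algebra of `2 × 2` matrices -/
abbrev M2 := CStarMatrix (Fin 2) (Fin 2) ℂ

instance : IsSimpleRing M2 := inferInstanceAs (IsSimpleRing (Matrix (Fin 2) (Fin 2) ℂ))

/-- a rank one projection -/
noncomputable def e11 : M2 := CStarMatrix.ofMatrix (Matrix.diagonal ![1, 0])

lemma not_cuntzSub : ¬ CuntzSub (1 : M2) e11 := by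
  intro h
  obtain ⟨r, hr⟩ := h 1 one_pos
  have h1 : IsUnit (r * e11 * star r) := by
    have h2 : ‖1 - r * e11 * star r‖ < 1 := by rwa [norm_sub_rev] at hr
    have h3 := isUnit_one_sub_of_norm_lt_one h2
    rwa [sub_sub_cancel] at h3
  have h4 : (CStarMatrix.ofMatrix.symm (r * e11 * star r)).det = 0 := by
    have h5 : CStarMatrix.ofMatrix.symm (r * e11 * star r)
        = (CStarMatrix.ofMatrix.symm r) * (Matrix.diagonal ![1, 0]) *
          (CStarMatrix.ofMatrix.symm (star r)) := rfl
    rw [h5, Matrix.det_mul, Matrix.det_mul, Matrix.det_diagonal]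
    simp
  have h6 : IsUnit (CStarMatrix.ofMatrix.symm (r * e11 * star r)) := h1
  rw [Matrix.isUnit_iff_isUnit_det, h4] at h6
  exact not_isUnit_zero h6

lemma isPos_e11 : IsPos e11 := by
  refine ⟨e11, ?_⟩
  have h1 : star e11 = e11 := by
    show CStarMatrix.ofMatrix (Matrix.conjTranspose (Matrix.diagonal ![1, 0])) = _
    rw [Matrix.diagonal_conjTranspose, e11]
    congr 2
    ext i
    fin_cases i <;> simp
  rw [h1]
  show e11 = CStarMatrix.ofMatrix ((Matrix.diagonal ![1, 0]) * (Matrix.diagonal ![1, 0]))
  rw [Matrix.diagonal_mul_diagonal, e11]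
  congr 2
  ext i
  fin_cases i <;> simp

lemma e11_ne : e11 ≠ 0 := by
  intro h
  have h1 : e11 0 0 = 0 := by rw [h]; rfl
  have h2 : e11 0 0 = 1 := by
    show Matrix.diagonal ![(1 : ℂ), 0] 0 0 = 1
    simp
  rw [h2] at h1
  exact one_ne_zero h1

section Pt

variable (D : Type) [CStarAlgebra D]

/-- the trivial action -/
noncomputable def alphaU : Unit →* (C(Unit, D) ≃⋆ₐ[ℂ] C(Unit, D)) := 1

/-- the trivial automorphisms -/
noncomputable def betaU : Unit → Unit → (D ≃⋆ₐ[ℂ] D) := fun _ _ => 1

lemma settingU [IsSimpleRing D] : Setting (alphaU D) (betaU D) where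
  simple := inferInstance
  cont g := continuous_of_discreteTopology
  minimal x y := subset_closure ⟨1, Subsingleton.elim _ _⟩
  essFree S hS x := subset_closure (by
    intro g hg
    exact absurd (Subsingleton.elim g 1 ▸ hg) hS)
  liesOver := ⟨fun _ _ => continuous_of_discreteTopology, fun _ a x => rfl⟩
  pseudoperiodic := by
    intro a ha hne
    have hrefl : CuntzSub a a := by
      have := cuntzSub_conj a 1
      rwa [one_mul, star_one, mul_one] at this
    refine ⟨a, ha, hne, hrefl, ?_⟩
    rintro _ ⟨g, x, rfl⟩
    exact hrefl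

/-- evaluation at the point -/
noncomputable def iotaU : C(Unit, D) →⋆ₐ[ℂ] D where
  toFun f := f ()
  map_one' := rfl
  map_mul' _ _ := rfl
  map_zero' := rfl
  map_add' _ _ := rfl
  commutes' _ := rfl
  map_star' _ := rfl

lemma exists_expU : ∃ E : D →L[ℂ] C(Unit, D), ∀ d, E d = ContinuousMap.const Unit d :=
  ⟨LinearMap.mkContinuous
    { toFun := fun d => ContinuousMap.const Unit d
      map_add' := fun _ _ => rfl
      map_smul' := fun _ _ => rfl } 1 (fun d => by
        rw [one_mul]
        refine (ContinuousMap.norm_le _ (norm_nonneg d)).mpr fun x => ?_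
        exact le_rfl), fun _ => rfl⟩

lemma reducedU : IsReducedCrossedProduct (alphaU D) (iotaU D) (fun _ => (1 : D)) where
  covariant :=
    { mul := fun _ _ => (one_mul (1 : D)).symm
      unitary_left := fun _ => by rw [star_one, one_mul]
      unitary_right := fun _ => by rw [star_one, one_mul]
      cov := fun g a => by
        rw [star_one, one_mul, mul_one]
        rfl }
  dense := by
    intro x
    apply subset_closure
    exact Submodule.subset_span ⟨ContinuousMap.const Unit x, 1, by rw [mul_one]; rfl⟩
  expectation := by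
    obtain ⟨E, hE⟩ := exists_expU D
    refine ⟨E, fun b => ?_, fun b g hg => ?_, fun x hx => ?_⟩
    · rw [hE]; rfl
    · exact absurd (Subsingleton.elim g 1) hg
    · rw [hE] at hx
      have h1 : star x * x = 0 := congrArg (fun f : C(Unit, D) => f ()) hx
      exact (CStarRing.star_mul_self_eq_zero_iff x).mp h1

end Pt

theorem not_dominates : ¬ DominatesFunction (iotaU M2) := by
  intro h
  rcases (dichotomy (settingU M2) (reducedU M2)).mp h with h1 | h1
  · exact not_finite_iff_infinite.mpr h1 inferInstance
  · exact not_cuntzSub (h1 e11 isPos_e11 e11_ne)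

/-- The data of the problem: a simple unital C*-algebra `D`, a nonempty compact metric space `X`
with a minimal essentially free action of the discrete group `G`, a pseudoperiodically generated
action `α` of `G` on `C(X, D)` lying over it, and its reduced crossed product `A`. -/
structure System where
  X : Type
  [metric : MetricSpace X]
  [compact : CompactSpace X]
  [nonempty : Nonempty X]
  D : Type
  [cstarD : CStarAlgebra D]
  G : Type
  [group : Group G]
  [act : MulAction G X]
  α : G →* (C(X, D) ≃⋆ₐ[ℂ] C(X, D))
  β : G → X → (D ≃⋆ₐ[ℂ] D)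
  setting : Setting α β
  A : Type
  [cstarA : CStarAlgebra A]
  ι : C(X, D) →⋆ₐ[ℂ] A
  u : G → A
  crossed : IsReducedCrossedProduct α ι u

attribute [instance] System.metric System.compact System.nonempty System.cstarD System.group
  System.act System.cstarA

/-- The property asked for: every nonzero positive element of `C(X, D)` dominates a nonzero
positive function on `X` in the crossed product. -/
def System.Dominates (S : System) : Prop := DominatesFunction S.ι

/-- Each nonzero positive element `d` of the C*-algebra `D` satisfies `1 ≾ d`. -/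
def OneDominated (D : Type) [CStarAlgebra D] : Prop :=
  ∀ d : D, IsPos d → d ≠ 0 → CuntzSub 1 d

/-- the example of `2 × 2` matrices over a point -/
noncomputable def sysU : System where
  X := Unit
  D := M2
  G := Unit
  α := alphaU M2
  β := betaU M2
  setting := settingU M2
  A := M2
  ι := iotaU M2
  u := fun _ => (1 : M2)
  crossed := reducedU M2

end Pool.Agent.V11109.CX
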