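import Pool.Agent.V11109.CX.Main

/-!
# The case of a finite space `X`
-/

set_option autoImplicit false
set_option linter.style.haveILetI false
set_option linter.unusedSectionVars false

open scoped ComplexOrder Pointwise Topology
open Filter

namespace Pool.Agent.V11109.CX

/-- `A`, with `ι : C(X, D) → A` and the unitaries `u g`, is the reduced crossed product of
`C(X, D)` by the action `α`: a covariant representation such that the products `ι b * u g` span a
dense subspace, with a continuous faithful conditional expectation which kills the products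
`ι b * u g`, `g ≠ 1`. -/
structure IsReducedCrossedProduct {X : Type} [TopologicalSpace X] [CompactSpace X] {D : Type}
    [CStarAlgebra D] {G : Type} [Group G] (α : G →* (C(X, D) ≃⋆ₐ[ℂ] C(X, D))) {A : Type}
    [CStarAlgebra A] (ι : C(X, D) →⋆ₐ[ℂ] A) (u : G → A) : Prop where
  covariant : Covariant α ι u
  dense : Dense ((Submodule.span ℂ {x : A | ∃ b g, x = ι b * u g} : Submodule ℂ A) : Set A)
  expectation : ∃ E : A →L[ℂ] C(X, D), (∀ b, E (ι b) = b) ∧
    (∀ b g, g ≠ 1 → E (ι b * u g) = 0) ∧ (∀ x, E (star x * x) = 0 → x = 0)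

/-- Every nonzero positive element of `C(X, D)` dominates a nonzero function on `X`, in the sense
of Cuntz subequivalence in `A`. -/
def DominatesFunction {X : Type} [TopologicalSpace X] [CompactSpace X] {D : Type}
    [CStarAlgebra D] {A : Type} [CStarAlgebra A] (ι : C(X, D) →⋆ₐ[ℂ] A) : Prop :=
  ∀ a : C(X, D), IsPos a → a ≠ 0 →
    ∃ f : C(X, ℝ), (∀ x, 0 ≤ f x) ∧ f ≠ 0 ∧ CuntzSub (ι (scal D f)) (ι a)

section

variable {X : Type} [TopologicalSpace X] [CompactSpace X] [T2Space X] {D : Type} [CStarAlgebra D]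
  {G : Type} [Group G] [MulAction G X] {α : G →* (C(X, D) ≃⋆ₐ[ℂ] C(X, D))}
  {β : G → X → (D ≃⋆ₐ[ℂ] D)} (hα : LiesOver α β)
  {A : Type} [CStarAlgebra A] {ι : C(X, D) →⋆ₐ[ℂ] A} {u : G → A}

omit [T2Space X] [MulAction G X] in
lemma u_one (hcov : Covariant α ι u) : u 1 = 1 := by
  have h1 : u 1 = u 1 * u 1 := by rw [← hcov.mul, one_mul]
  have h2 := congrArg (star (u 1) * ·) h1
  simp only [← mul_assoc, hcov.unitary_left, one_mul] at h2
  exact h2.symm

/-- the characteristic function of a point of a discrete space -/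
noncomputable def pt [DiscreteTopology X] (x₀ : X) : C(X, ℝ) :=
  ⟨Set.indicator {x₀} 1, continuous_of_discreteTopology⟩

omit [CompactSpace X] [T2Space X] in
lemma pt_self [DiscreteTopology X] (x₀ : X) : pt x₀ x₀ = 1 := by
  show Set.indicator {x₀} 1 x₀ = (1 : ℝ)
  rw [Set.indicator_of_mem (Set.mem_singleton x₀)]
  rfl

omit [CompactSpace X] [T2Space X] in
lemma pt_ne [DiscreteTopology X] {x₀ x : X} (h : x ≠ x₀) : pt x₀ x = 0 := by
  show Set.indicator {x₀} 1 x = (0 : ℝ)
  rw [Set.indicator_of_notMem (by simpa using h)]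

omit [CompactSpace X] [T2Space X] in
lemma pt_sq [DiscreteTopology X] (x₀ : X) : scal D (pt x₀) * scal D (pt x₀) = scal D (pt x₀) := by
  ext x
  rw [ContinuousMap.mul_apply, scal_apply]
  by_cases h : x = x₀
  · subst h; rw [pt_self]; simp
  · rw [pt_ne h]; simp

omit [T2Space X] in
lemma norm_pt_le [DiscreteTopology X] (x₀ : X) : ‖scal D (pt x₀)‖ ≤ 1 := by
  rw [ContinuousMap.norm_le _ zero_le_one]
  intro x
  rw [scal_apply]
  by_cases h : x = x₀
  · subst h
    rw [pt_self, Complex.ofReal_one, one_smul]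
    rcases subsingleton_or_nontrivial D with hs | hs
    · rw [Subsingleton.elim (1 : D) 0, norm_zero]; exact zero_le_one
    · rw [norm_one]
  · rw [pt_ne h]; simp

omit [T2Space X] in
/-- the easy direction -/
lemma dominates_of_one [DiscreteTopology X] (hD : ∀ d : D, IsPos d → d ≠ 0 → CuntzSub 1 d) :
    DominatesFunction ι := by
  intro a ha hne
  obtain ⟨x₁, hx₁⟩ : ∃ x, a x ≠ 0 := by
    by_contra hcon
    push Not at hcon
    exact hne (ContinuousMap.ext hcon)
  refine ⟨pt x₁, fun x => ?_, fun h => ?_, ?_⟩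
  · by_cases h : x = x₁
    · subst h; rw [pt_self]; exact zero_le_one
    · rw [pt_ne h]
  · have h1 : pt x₁ x₁ = 0 := by rw [h]; rfl
    rw [pt_self] at h1
    exact one_ne_zero h1
  · apply CuntzSub.map
    have hpos : IsPos (a x₁) := by
      obtain ⟨c, rfl⟩ := ha
      exact ⟨c x₁, rfl⟩
    intro ε hε
    obtain ⟨r, hr⟩ := hD (a x₁) hpos hx₁ (ε / 2) (by positivity)
    refine ⟨scal D (pt x₁) * ContinuousMap.const X r, ?_⟩
    refine lt_of_le_of_lt ?_ (half_lt_self hε)
    rw [ContinuousMap.norm_le _ (by positivity)]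
    intro x
    rw [ContinuousMap.sub_apply, ContinuousMap.mul_apply, ContinuousMap.mul_apply,
      ContinuousMap.star_apply, ContinuousMap.mul_apply, scal_apply, ContinuousMap.const_apply]
    by_cases h : x = x₁
    · subst h
      rw [pt_self]
      simpa using hr.le
    · rw [pt_ne h]
      simpa using (by positivity : (0 : ℝ) ≤ ε / 2)

include hα in
/-- compressions of the crossed product to a point with trivial stabilizer -/
lemma compress_pt [DiscreteTopology X] (hcov : Covariant α ι u)
    (hd : Dense ((Submodule.span ℂ {x : A | ∃ b g, x = ι b * u g} : Submodule ℂ A) : Set A))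
    {E : A →L[ℂ] C(X, D)} (hE1 : ∀ b, E (ι b) = b) (hE2 : ∀ b g, g ≠ 1 → E (ι b * u g) = 0)
    {x₀ : X} (hfree : ∀ g : G, g ≠ 1 → g • x₀ ≠ x₀) (z : A) :
    ι (scal D (pt x₀)) * z * ι (scal D (pt x₀)) = ι (scal D (pt x₀) * E z * scal D (pt x₀)) := by
  have hcont : Continuous ι :=
    AddMonoidHomClass.continuous_of_bound ι 1 (fun x => by
      rw [one_mul]; exact NonUnitalStarAlgHom.norm_apply_le ι x)
  have hcl : IsClosed {z : A | ι (scal D (pt x₀)) * z * ι (scal D (pt x₀))
      = ι (scal D (pt x₀) * E z * scal D (pt x₀))} := by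
    apply isClosed_eq
    · fun_prop
    · exact hcont.comp (by fun_prop)
  have hz : z ∈ closure ((Submodule.span ℂ {x : A | ∃ b g, x = ι b * u g} : Submodule ℂ A) :
      Set A) := hd z
  refine hcl.closure_subset_iff.mpr ?_ hz
  intro y hy
  have hy' : y ∈ Submodule.span ℂ {x : A | ∃ b g, x = ι b * u g} := hy
  clear hy
  simp only [Set.mem_ofPred_eq]
  induction hy' using Submodule.span_induction with
  | mem x hx =>
    obtain ⟨b, g, rfl⟩ := hx
    by_cases hg : g = 1
    · subst hg
      rw [u_one hcov, mul_one, hE1, map_mul, map_mul]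
    · rw [hE2 b g hg, mul_zero, zero_mul, map_zero]
      have e1 : ι (scal D (pt x₀)) * (ι b * u g) * ι (scal D (pt x₀))
          = ι (scal D (pt x₀) * b * α g (scal D (pt x₀))) * u g := by
        rw [mul_assoc, mul_assoc, u_iota hcov, map_mul, map_mul]
        simp only [mul_assoc]
      have e2 : scal D (pt x₀) * b * α g (scal D (pt x₀)) = 0 := by
        ext x
        rw [ContinuousMap.mul_apply, ContinuousMap.mul_apply, alpha_scal hα, scal_apply,
          ContinuousMap.zero_apply]
        by_cases h : x = x₀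
        · subst h
          have h2 : g⁻¹ • x ≠ x := by
            intro h3
            apply hfree g hg
            calc g • x = g • (g⁻¹ • x) := by rw [h3]
              _ = x := smul_inv_smul _ _
          rw [pt_ne h2]; simp
        · rw [pt_ne h]; simp
      rw [e1, e2, map_zero, zero_mul]
  | zero => simp
  | add x y _ _ h1 h2 =>
    rw [mul_add, add_mul, h1, h2, map_add, mul_add, add_mul, map_add]
  | smul c x _ h1 =>
    rw [mul_smul_comm, smul_mul_assoc, h1, map_smul, mul_smul_comm, smul_mul_assoc, map_smul]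

include hα in
/-- the converse for a free and transitive action on a discrete space -/
lemma one_of_dominates [DiscreteTopology X] (hA : IsReducedCrossedProduct α ι u)
    (htrans : ∀ x y : X, ∃ g : G, g • x = y) {x₀ : X} (hfree : ∀ g : G, g ≠ 1 → g • x₀ ≠ x₀)
    (hdom : DominatesFunction ι) (d : D) (hd : IsPos d) (hne : d ≠ 0) : CuntzSub 1 d := by
  obtain ⟨E, hE1, hE2, -⟩ := hA.expectation
  have hcov := hA.covariant
  set p : C(X, D) := scal D (pt x₀) with hp
  have hpp : p * p = p := pt_sq x₀
  have hps : star p = p := star_scal _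
  obtain ⟨a, ha⟩ : ∃ a : C(X, D), a = p * ContinuousMap.const X d := ⟨_, rfl⟩
  have ha' : p * a * p = a := by
    rw [ha, ← mul_assoc, hpp, mul_assoc, ← scal_comm, ← mul_assoc, hpp]
  have hapos : IsPos a := by
    obtain ⟨c, rfl⟩ := hd
    refine ⟨p * ContinuousMap.const X c, ?_⟩
    rw [star_mul, hps, ha]
    ext x
    simp only [ContinuousMap.mul_apply, ContinuousMap.star_apply, ContinuousMap.const_apply, hp,
      scal_apply, smul_mul_assoc, mul_smul_comm, one_mul, mul_one, smul_smul]
    by_cases h : x = x₀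
    · subst h; rw [pt_self]; simp
    · rw [pt_ne h]; simp
  have hane : a ≠ 0 := by
    intro h
    have h1 : a x₀ = 0 := by rw [h]; rfl
    rw [ha, ContinuousMap.mul_apply, hp, scal_apply, pt_self, ContinuousMap.const_apply] at h1
    simp at h1
    exact hne h1
  obtain ⟨f, hf0, hfne, hfa⟩ := hdom a hapos hane
  obtain ⟨y, hy⟩ : ∃ y, f y ≠ 0 := by
    by_contra hcon
    push Not at hcon
    exact hfne (ContinuousMap.ext hcon)
  have hfy : 0 < f y := lt_of_le_of_ne (hf0 y) (Ne.symm hy)
  obtain ⟨g, hg⟩ := htrans y x₀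
  -- the projection at `x₀` is dominated by `a`
  have h1 : CuntzSub (ι p) (ι a) := by
    refine CuntzSub.trans ?_ hfa
    have e1 : ι p = (((Real.sqrt (f y))⁻¹ : ℂ) • (ι p * u g)) * ι (scal D f) *
        star (((Real.sqrt (f y))⁻¹ : ℂ) • (ι p * u g)) := by
      have e2 : star (((Real.sqrt (f y))⁻¹ : ℂ)) = ((Real.sqrt (f y))⁻¹ : ℂ) := by
        rw [Complex.star_def, map_inv₀, Complex.conj_ofReal]
      have e3 : ((Real.sqrt (f y))⁻¹ : ℂ) * ((Real.sqrt (f y))⁻¹ : ℂ) = ((f y)⁻¹ : ℂ) := by
        rw [← mul_inv, ← Complex.ofReal_mul, Real.mul_self_sqrt hfy.le]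
      have e4 : p = ((f y)⁻¹ : ℂ) • (p * α g (scal D f) * p) := by
        ext x
        rw [ContinuousMap.smul_apply, ContinuousMap.mul_apply, ContinuousMap.mul_apply,
          alpha_scal hα, hp, scal_apply]
        by_cases h : x = x₀
        · subst h
          rw [pt_self, ← hg, inv_smul_smul]
          simp only [smul_mul_assoc, mul_smul_comm, one_mul, mul_one, smul_smul,
            Complex.ofReal_one]
          rw [inv_mul_cancel₀ (by exact_mod_cast hy)]
        · rw [pt_ne h]; simp
      rw [star_smul, e2, star_mul, ← map_star, hps, smul_mul_assoc, smul_mul_assoc, mul_smul_comm,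
        smul_smul, e3]
      have e5 : ι p * u g * ι (scal D f) * (star (u g) * ι p)
          = ι (p * α g (scal D f) * p) := by
        rw [map_mul, map_mul, ← hcov.cov]
        simp only [mul_assoc]
      rw [e5, ← map_smul, ← e4]
    rw [e1]
    exact cuntzSub_conj _ _
  have hinj : Function.Injective ι := fun b c hbc => by rw [← hE1 b, ← hE1 c, hbc]
  have hnorm : ∀ b, ‖ι b‖ = ‖b‖ := fun b =>
    NonUnitalStarAlgHom.norm_map (ι : C(X, D) →⋆ₙₐ[ℂ] A) hinj b
  intro ε hε
  obtain ⟨r, hr⟩ := h1 ε hε
  refine ⟨E r x₀, ?_⟩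
  have e1 : ι p * (r * ι a * star r - ι p) * ι p
      = ι ((p * E r * p) * a * star (p * E r * p) - p) := by
    have e0 := compress_pt hα hcov hA.dense hE1 hE2 hfree r
    rw [← hp] at e0
    have e2 : ι p * r * ι p * ι a * star (ι p * r * ι p)
        = ι p * r * ι (p * a * p) * star r * ι p := by
      rw [star_mul, star_mul, ← map_star, hps, map_mul ι (p * a) p, map_mul ι p a]
      simp only [mul_assoc]
    have e3 : ι p * ι p * ι p = ι p := by rw [← map_mul, hpp, ← map_mul, hpp]
    rw [map_sub, map_mul ι (p * E r * p * a) (star (p * E r * p)), map_mul ι (p * E r * p) a,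
      map_star, ← e0, e2, ha', mul_sub, sub_mul, e3]
    simp only [mul_assoc]
  have h2 : ‖(p * E r * p) * a * star (p * E r * p) - p‖ < ε := by
    rw [← hnorm, ← e1]
    have hpn : ‖ι p‖ ≤ 1 := by rw [hnorm]; exact norm_pt_le x₀
    calc ‖ι p * (r * ι a * star r - ι p) * ι p‖
        ≤ ‖ι p‖ * ‖r * ι a * star r - ι p‖ * ‖ι p‖ :=
          (norm_mul_le _ _).trans (mul_le_mul_of_nonneg_right (norm_mul_le _ _) (norm_nonneg _))
      _ ≤ 1 * ‖r * ι a * star r - ι p‖ * 1 := by gcongr
      _ < ε := by rw [one_mul, mul_one]; exact hr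
  have h3 := (ContinuousMap.norm_coe_le_norm ((p * E r * p) * a * star (p * E r * p) - p) x₀).trans_lt h2
  have e3 : ((p * E r * p) * a * star (p * E r * p) - p) x₀ = E r x₀ * d * star (E r x₀) - 1 := by
    simp only [ContinuousMap.sub_apply, ContinuousMap.mul_apply, ContinuousMap.star_apply, ha, hp,
      scal_apply, pt_self, ContinuousMap.const_apply, Complex.ofReal_one, one_smul, one_mul,
      mul_one]
  rwa [e3] at h3

end

end Pool.Agent.V11109.CX
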