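import Pool.Agent.V11109.CX.Cuntz

/-!
# Cuntz subequivalence to functions on `X` in crossed products of `C(X, D)`
-/

set_option autoImplicit false
set_option linter.style.haveILetI false
set_option linter.unusedSectionVars false

open scoped ComplexOrder Pointwise Topology
open Filter

namespace Pool.Agent.V11109.CX

/-- a positive element of a C*-algebra -/
def IsPos {B : Type} [CStarAlgebra B] (a : B) : Prop := ∃ c : B, a = star c * c

/-- The set `S` of automorphisms is pseudoperiodic. -/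
def Pseudoperiodic {D : Type} [CStarAlgebra D] (S : Set (D ≃⋆ₐ[ℂ] D)) : Prop :=
  ∀ a : D, IsPos a → a ≠ 0 → ∃ b : D, IsPos b ∧ b ≠ 0 ∧ CuntzSub b a ∧ ∀ β ∈ S, CuntzSub b (β a)

section Defs

variable (X : Type) [TopologicalSpace X] [CompactSpace X] (D : Type) [CStarAlgebra D]

/-- the function `f` as an element of `C(X, D)` -/
noncomputable def scal {X : Type} [TopologicalSpace X] (D : Type) [CStarAlgebra D] (f : C(X, ℝ)) :
    C(X, D) :=
  ⟨fun x => (f x : ℂ) • (1 : D), by fun_prop⟩

lemma scal_apply {X : Type} [TopologicalSpace X] (D : Type) [CStarAlgebra D] (f : C(X, ℝ)) (x : X) :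
    scal D f x = (f x : ℂ) • (1 : D) := rfl

/-- The action `α` on `C(X, D)` lies over the action of `G` on `X`, with the automorphisms
`β g x` of `D`. -/
structure LiesOver {X : Type} [TopologicalSpace X] [CompactSpace X] {D : Type} [CStarAlgebra D]
    {G : Type} [Group G] [MulAction G X] (α : G →* (C(X, D) ≃⋆ₐ[ℂ] C(X, D)))
    (β : G → X → (D ≃⋆ₐ[ℂ] D)) : Prop where
  cont : ∀ g d, Continuous fun x => β g x d
  formula : ∀ g a x, α g a x = β g x (a (g⁻¹ • x))

/-- A covariant representation of `(C(X, D), G, α)` in the unital C*-algebra `A`. -/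
structure Covariant {X : Type} [TopologicalSpace X] [CompactSpace X] {D : Type} [CStarAlgebra D]
    {G : Type} [Group G] (α : G →* (C(X, D) ≃⋆ₐ[ℂ] C(X, D))) {A : Type} [CStarAlgebra A]
    (ι : C(X, D) →⋆ₐ[ℂ] A) (u : G → A) : Prop where
  mul : ∀ g h, u (g * h) = u g * u h
  unitary_left : ∀ g, star (u g) * u g = 1
  unitary_right : ∀ g, u g * star (u g) = 1
  cov : ∀ g a, u g * ι a * star (u g) = ι (α g a)

end Defs

section Points

variable {X : Type} [TopologicalSpace X] [CompactSpace X] [T2Space X] {G : Type} [Group G]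
  [MulAction G X] (hc : ∀ g : G, Continuous fun x : X => g • x)
  (hmin : ∀ x : X, Dense (MulAction.orbit G x))

include hc hmin

lemma infinite_inter [Infinite X] {U : Set X} (hU : IsOpen U) (hne : U.Nonempty) (x₀ : X) :
    (U ∩ MulAction.orbit G x₀).Infinite := by
  intro hfin
  have h1 : U ⊆ U ∩ MulAction.orbit G x₀ := by
    have h2 := (hmin x₀).open_subset_closure_inter hU
    rwa [hfin.isClosed.closure_eq] at h2
  have hUfin : U.Finite := hfin.subset h1
  obtain ⟨y, hy⟩ := hne
  have hyo : IsOpen ({y} : Set X) := by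
    have h3 : ({y} : Set X) = U ∩ (U \ {y})ᶜ := by
      ext z
      simp only [Set.mem_singleton_iff, Set.mem_inter_iff, Set.mem_compl_iff, Set.mem_sdiff, not_and,
        not_not]
      constructor
      · rintro rfl; exact ⟨hy, fun _ => rfl⟩
      · rintro ⟨h4, h5⟩; exact h5 h4
    rw [h3]
    exact hU.inter (hUfin.subset Set.sdiff_subset).isClosed.isOpen_compl
  have hall : ∀ x : X, IsOpen ({x} : Set X) := by
    intro x
    obtain ⟨z, hz, hz'⟩ := (hmin x).inter_open_nonempty {y} hyo ⟨y, rfl⟩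
    rw [Set.mem_singleton_iff] at hz
    subst hz
    obtain ⟨g, hg⟩ := hz'
    have h4 : ({x} : Set X) = (fun x : X => g • x) ⁻¹' {z} := by
      ext w
      simp only [Set.mem_singleton_iff, Set.mem_preimage]
      constructor
      · rintro rfl; exact hg
      · intro h5
        have h6 : g • w = g • x := h5.trans hg.symm
        exact smul_left_cancel g h6
    rw [h4]
    exact hyo.preimage (hc g)
  haveI : DiscreteTopology X := discreteTopology_iff_isOpen_singleton.mpr hall
  exact not_finite_iff_infinite.mpr ‹Infinite X› finite_of_compact_of_discrete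

lemma exists_points [Infinite X] {U : Set X} (hU : IsOpen U) (hne : U.Nonempty) (x₀ : X) (n : ℕ) :
    ∃ h : Fin n → G, (∀ i, h i • x₀ ∈ U) ∧ Function.Injective fun i => h i • x₀ := by
  have hinf := infinite_inter hc hmin hU hne x₀
  let e := hinf.natEmbedding
  have h1 : ∀ i : Fin n, ∃ g : G, g • x₀ = (e i : X) := fun i => (e i).2.2
  choose h hh using h1
  refine ⟨h, fun i => ?_, fun i j hij => ?_⟩
  · rw [hh]; exact (e i).2.1
  · simp only [hh] at hij
    exact Fin.ext (e.injective (Subtype.ext hij))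

omit [CompactSpace X] hmin in
lemma exists_sep {x₀ : X} {n : ℕ} {h : Fin n → G} (hinj : Function.Injective fun i => h i • x₀) :
    ∃ W ∈ 𝓝 x₀, ∀ i j, i ≠ j → ∀ x ∈ W, ∀ x' ∈ W, h i • x ≠ h j • x' := by
  have h1 : ∀ i j : Fin n, ∃ W ∈ 𝓝 x₀, i ≠ j → ∀ x ∈ W, ∀ x' ∈ W, h i • x ≠ h j • x' := by
    intro i j
    by_cases hij : i = j
    · exact ⟨Set.univ, Filter.univ_mem, fun h => absurd hij h⟩
    · have hne : h i • x₀ ≠ h j • x₀ := fun he => hij (hinj he)
      obtain ⟨V, V', hV, hV', hx, hx', hd⟩ := t2_separation hne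
      refine ⟨(fun x : X => h i • x) ⁻¹' V ∩ (fun x : X => h j • x) ⁻¹' V',
        Filter.inter_mem ((hV.preimage (hc _)).mem_nhds hx) ((hV'.preimage (hc _)).mem_nhds hx'),
        fun _ x hx x' hx' he => ?_⟩
      exact Set.disjoint_left.mp hd hx.1 (show h i • x ∈ V' by rw [he]; exact hx'.2)
  choose W hW hW' using h1
  refine ⟨⋂ i, ⋂ j, W i j, Filter.iInter_mem.mpr fun i => Filter.iInter_mem.mpr fun j => hW i j,
    fun i j hij x hx x' hx' => hW' i j hij x ?_ x' ?_⟩
  · exact Set.mem_iInter.mp (Set.mem_iInter.mp hx i) j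
  · exact Set.mem_iInter.mp (Set.mem_iInter.mp hx' i) j

end Points

section Main

variable {X : Type} [TopologicalSpace X] [CompactSpace X] [T2Space X] {D : Type} [CStarAlgebra D]
  {G : Type} [Group G] [MulAction G X] {α : G →* (C(X, D) ≃⋆ₐ[ℂ] C(X, D))}
  {β : G → X → (D ≃⋆ₐ[ℂ] D)} (hα : LiesOver α β)
  {A : Type} [CStarAlgebra A] {ι : C(X, D) →⋆ₐ[ℂ] A} {u : G → A} (hcov : Covariant α ι u)

lemma scal_comm (g : C(X, ℝ)) (a : C(X, D)) : scal D g * a = a * scal D g := by
  ext x
  simp [scal_apply]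

lemma star_scal (g : C(X, ℝ)) : star (scal D g) = scal D g := by
  ext x
  simp [scal_apply]

include hα in
lemma alpha_scal (h : G) (g : C(X, ℝ)) (x : X) : α h (scal D g) x = (g (h⁻¹ • x) : ℂ) • (1 : D) := by
  rw [hα.formula, scal_apply, map_smul, map_one]

lemma alpha_inv (h : G) (a : C(X, D)) : α h (α h⁻¹ a) = a := by
  rw [← StarAlgEquiv.mul_apply, ← map_mul, mul_inv_cancel, map_one, StarAlgEquiv.one_apply]

include hcov in
lemma star_u_mul (h : G) (b : C(X, D)) : star (u h) * ι (α h b) * u h = ι b := by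
  rw [← hcov.cov]
  calc star (u h) * (u h * ι b * star (u h)) * u h
      = (star (u h) * u h) * ι b * (star (u h) * u h) := by simp only [mul_assoc]
    _ = ι b := by rw [hcov.unitary_left, one_mul, mul_one]

include hcov in
lemma iota_star_u (h : G) (b : C(X, D)) : ι b * star (u h) = star (u h) * ι (α h b) := by
  rw [← hcov.cov]
  calc ι b * star (u h) = (star (u h) * u h) * ι b * star (u h) := by
        rw [hcov.unitary_left, one_mul]
    _ = _ := by simp only [mul_assoc]

include hcov in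
lemma u_iota (h : G) (b : C(X, D)) : u h * ι b = ι (α h b) * u h := by
  rw [← hcov.cov]
  calc u h * ι b = u h * ι b * (star (u h) * u h) := by rw [hcov.unitary_left, mul_one]
    _ = _ := by simp only [mul_assoc]

include hα hcov in
/-- the cross terms vanish -/
lemma cross {W : Set X} {g : C(X, ℝ)} (hg : ∀ x, x ∉ W → g x = 0) {h k : G}
    (hW : ∀ x ∈ W, ∀ x' ∈ W, h • x ≠ k • x') (a : C(X, D)) :
    ι (scal D g) * star (u h) * ι a * (u k * ι (scal D g)) = 0 := by
  rw [iota_star_u hcov, u_iota hcov]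
  have h1 : α h (scal D g) * a * α k (scal D g) = 0 := by
    ext x
    rw [ContinuousMap.mul_apply, ContinuousMap.mul_apply, alpha_scal hα, alpha_scal hα,
      ContinuousMap.zero_apply]
    by_cases h2 : h⁻¹ • x ∈ W
    · by_cases h3 : k⁻¹ • x ∈ W
      · exact absurd (by rw [smul_inv_smul, smul_inv_smul]) (hW _ h2 _ h3)
      · rw [hg _ h3]; simp
    · rw [hg _ h2]; simp
  calc star (u h) * ι (α h (scal D g)) * ι a * (ι (α k (scal D g)) * u k)
      = star (u h) * ι (α h (scal D g) * a * α k (scal D g)) * u k := by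
        rw [map_mul, map_mul]; simp only [mul_assoc]
    _ = 0 := by rw [h1, map_zero, mul_zero, zero_mul]

include hα hcov in
/-- the main computation -/
lemma compute {W : Set X} {g : C(X, ℝ)} (hg : ∀ x, x ∉ W → g x = 0) {n : ℕ} {h : Fin n → G}
    (hW : ∀ i j, i ≠ j → ∀ x ∈ W, ∀ x' ∈ W, h i • x ≠ h j • x') (a : C(X, D)) (C : Fin n → C(X, D)) :
    (∑ i, ι (C i) * (ι (scal D g) * star (u (h i)))) * ι a *
      star (∑ i, ι (C i) * (ι (scal D g) * star (u (h i))))
      = ι (scal D g * (∑ i, C i * α (h i)⁻¹ a * star (C i)) * scal D g) := by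
  have eR : scal D g * (∑ i, C i * α (h i)⁻¹ a * star (C i)) * scal D g
      = ∑ i, scal D g * (C i * α (h i)⁻¹ a * star (C i)) * scal D g := by
    rw [Finset.mul_sum, Finset.sum_mul]
  rw [eR, map_sum, Finset.sum_mul, star_sum, Finset.sum_mul]
  refine Finset.sum_congr rfl fun i _ => ?_
  rw [Finset.mul_sum, Finset.sum_eq_single i]
  · have e1 : ι (C i) * (ι (scal D g) * star (u (h i))) * ι a *
        star (ι (C i) * (ι (scal D g) * star (u (h i))))
        = ι (C i) * ι (scal D g) * (star (u (h i)) * ι (α (h i) (α (h i)⁻¹ a)) * u (h i)) *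
          ι (scal D g) * star (ι (C i)) := by
      rw [alpha_inv, star_mul, star_mul, star_star, ← map_star ι (scal D g), star_scal]
      simp only [mul_assoc]
    rw [e1, star_u_mul hcov, ← map_star, ← map_mul, ← map_mul, ← map_mul, ← map_mul]
    congr 1
    rw [← scal_comm g (C i)]
    calc scal D g * C i * α (h i)⁻¹ a * scal D g * star (C i)
        = scal D g * C i * α (h i)⁻¹ a * (scal D g * star (C i)) := by rw [mul_assoc]
      _ = scal D g * C i * α (h i)⁻¹ a * (star (C i) * scal D g) := by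
          rw [scal_comm g (star (C i))]
      _ = _ := by simp only [mul_assoc]
  · intro j _ hj
    have e1 : ι (C i) * (ι (scal D g) * star (u (h i))) * ι a *
        star (ι (C j) * (ι (scal D g) * star (u (h j))))
        = ι (C i) * (ι (scal D g) * star (u (h i)) * ι a * (u (h j) * ι (scal D g)))
          * star (ι (C j)) := by
      rw [star_mul, star_mul, star_star, ← map_star ι (scal D g), star_scal]
      simp only [mul_assoc]
    rw [e1, cross hα hcov hg (hW i j hj.symm), mul_zero, zero_mul]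
  · intro hi; exact absurd (Finset.mem_univ i) hi

include hα hcov in
/-- The positive answer for infinite `X`. -/
theorem main [IsSimpleRing D] [Infinite X] (hc : ∀ g : G, Continuous fun x : X => g • x)
    (hmin : ∀ x : X, Dense (MulAction.orbit G x))
    (hps : Pseudoperiodic {γ | ∃ g x, γ = β g x}) {a : C(X, D)} (ha : IsPos a) (hne : a ≠ 0) :
    ∃ f : C(X, ℝ), (∀ x, 0 ≤ f x) ∧ f ≠ 0 ∧ CuntzSub (ι (scal D f)) (ι a) := by
  letI := CStarAlgebra.spectralOrder D
  haveI := CStarAlgebra.spectralOrderedRing D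
  letI := CStarAlgebra.spectralOrder C(X, D)
  haveI := CStarAlgebra.spectralOrderedRing C(X, D)
  letI := CStarAlgebra.spectralOrder A
  haveI := CStarAlgebra.spectralOrderedRing A
  have hposD : ∀ b : D, IsPos b ↔ 0 ≤ b := fun b => CStarAlgebra.nonneg_iff_eq_star_mul_self.symm
  have hposC : ∀ b : C(X, D), IsPos b ↔ 0 ≤ b :=
    fun b => CStarAlgebra.nonneg_iff_eq_star_mul_self.symm
  have hapos : ∀ x, 0 ≤ a x := by
    intro x
    obtain ⟨c, rfl⟩ := ha
    exact star_mul_self_nonneg (c x)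
  -- a point where `a` does not vanish
  obtain ⟨x₁, hx₁⟩ : ∃ x, a x ≠ 0 := by
    by_contra hcon
    push Not at hcon
    exact hne (ContinuousMap.ext hcon)
  obtain ⟨b₀, hb₀, hb₀ne, δ, hδ, hlow⟩ := exists_lower (hapos x₁) hx₁
  obtain ⟨b, hbpos, hbne, -, hbβ⟩ := hps b₀ ((hposD b₀).mpr hb₀) hb₀ne
  obtain ⟨n, c, hsum⟩ := exists_full ((hposD b).mp hbpos) hbne
  -- points of the orbit near `x₁`
  have hUo : IsOpen {x | ‖a x - a x₁‖ < δ} := by
    apply isOpen_lt (by fun_prop) continuous_const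
  obtain ⟨h, hhU, hinj⟩ := exists_points hc hmin hUo ⟨x₁, by simpa using hδ⟩ x₁ n
  -- the elements `r i`
  set K : ℝ := ∑ i, ‖c i‖ ^ 2 with hK
  have hK0 : 0 ≤ K := Finset.sum_nonneg fun i _ => sq_nonneg _
  have hr : ∀ i, ∃ r : D, ‖r * (α (h i)⁻¹ a) x₁ * star r - b‖ < 1 / 4 / (K + 1) := by
    intro i
    have e1 : (α (h i)⁻¹ a) x₁ = β (h i)⁻¹ x₁ (a (h i • x₁)) := by
      rw [hα.formula, inv_inv]
    rw [e1]
    have h1 : CuntzSub b₀ (a (h i • x₁)) := hlow _ (hapos _) (hhU i)
    have h2 : CuntzSub b (β (h i)⁻¹ x₁ (a (h i • x₁))) :=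
      (hbβ _ ⟨_, _, rfl⟩).trans (h1.map (β (h i)⁻¹ x₁ : D →⋆ₐ[ℂ] D))
    exact h2 _ (by positivity)
  choose r hr using hr
  -- the element `Z`
  set C : Fin n → C(X, D) := fun i => ContinuousMap.const X (c i * r i) with hC
  set Z : C(X, D) := ∑ i, C i * α (h i)⁻¹ a * star (C i) with hZ
  have hZx : ∀ x, Z x = ∑ i, c i * (r i * (α (h i)⁻¹ a) x * star (r i)) * star (c i) := by
    intro x
    rw [hZ, ContinuousMap.sum_apply]
    refine Finset.sum_congr rfl fun i _ => ?_
    rw [ContinuousMap.mul_apply, ContinuousMap.mul_apply, ContinuousMap.star_apply, hC]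
    simp only [ContinuousMap.const_apply, star_mul, mul_assoc]
  have hZ1 : ‖Z x₁ - 1‖ < 1 / 2 := by
    rw [hZx, ← hsum, ← Finset.sum_sub_distrib]
    calc ‖∑ i, (c i * (r i * (α (h i)⁻¹ a) x₁ * star (r i)) * star (c i) - c i * b * star (c i))‖
        ≤ ∑ i, ‖c i‖ ^ 2 * (1 / 4 / (K + 1)) := by
          refine (norm_sum_le _ _).trans (Finset.sum_le_sum fun i _ => ?_)
          rw [← sub_mul, ← mul_sub]
          calc ‖c i * (r i * (α (h i)⁻¹ a) x₁ * star (r i) - b) * star (c i)‖
              ≤ ‖c i * (r i * (α (h i)⁻¹ a) x₁ * star (r i) - b)‖ * ‖star (c i)‖ := norm_mul_le _ _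
            _ ≤ ‖c i‖ * ‖r i * (α (h i)⁻¹ a) x₁ * star (r i) - b‖ * ‖c i‖ := by
                rw [norm_star]; gcongr; exact norm_mul_le _ _
            _ ≤ ‖c i‖ * (1 / 4 / (K + 1)) * ‖c i‖ := by gcongr; exact (hr i).le
            _ = _ := by ring
      _ = 1 / 4 * (K / (K + 1)) := by rw [← Finset.sum_mul, ← hK]; ring
      _ ≤ 1 / 4 * 1 := by
          gcongr
          rw [div_le_one (by positivity)]
          linarith
      _ < 1 / 2 := by norm_num
  -- the neighborhood `W`
  obtain ⟨W₀, hW₀, hsep⟩ := exists_sep hc hinj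
  have hZo : IsOpen {x | ‖Z x - 1‖ < 1 / 2} := by
    apply isOpen_lt (by fun_prop) continuous_const
  obtain ⟨W, hWsub, hWo, hxW⟩ := mem_nhds_iff.mp (Filter.inter_mem hW₀ (hZo.mem_nhds hZ1))
  obtain ⟨ρ, hρ0, hρ1, hρ⟩ := exists_continuous_zero_one_of_isClosed (isClosed_compl_iff.mpr hWo)
    (isClosed_singleton (x := x₁)) (Set.disjoint_left.mpr fun x hx hx' => by
      rw [Set.mem_singleton_iff] at hx'; subst hx'; exact hx hxW)
  let g : C(X, ℝ) := ⟨fun x => max (2 * ρ x - 1) 0, by fun_prop⟩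
  let χ : C(X, ℝ) := ⟨fun x => min (2 * ρ x) 1, by fun_prop⟩
  have hρx : ρ x₁ = 1 := hρ1 rfl
  have hgW : ∀ x, x ∉ W → g x = 0 := by
    intro x hx
    have : ρ x = 0 := hρ0 hx
    show max (2 * ρ x - 1) 0 = 0
    rw [this]; norm_num
  have hχW : ∀ x, x ∉ W → χ x = 0 := by
    intro x hx
    have : ρ x = 0 := hρ0 hx
    show min (2 * ρ x) 1 = 0
    rw [this]; norm_num
  have hχ : ∀ x, 0 ≤ χ x ∧ χ x ≤ 1 := by
    intro x
    exact ⟨le_min (by have := (hρ x).1; linarith) zero_le_one, min_le_right _ _⟩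
  have hgχ : ∀ x, g x * χ x = g x := by
    intro x
    show max (2 * ρ x - 1) 0 * min (2 * ρ x) 1 = max (2 * ρ x - 1) 0
    rcases le_total (2 * ρ x) 1 with h1 | h1
    · rw [max_eq_right (by linarith), zero_mul]
    · rw [min_eq_right h1, mul_one]
  -- the inequality in `C(X, D)`
  set s : C(X, D) := scal D χ * (Z - 1) * scal D χ with hs
  have hZsa : star Z = Z := by
    rw [hZ, star_sum]
    refine Finset.sum_congr rfl fun i _ => ?_
    have : star (α (h i)⁻¹ a) = α (h i)⁻¹ a := by
      rw [← map_star]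
      congr 1
      exact (IsSelfAdjoint.of_nonneg ((hposC a).mp ha)).star_eq
    rw [star_mul, star_mul, star_star, this, mul_assoc]
  have hssa : IsSelfAdjoint s := by
    rw [isSelfAdjoint_iff, hs, star_mul, star_mul, star_scal, star_sub, star_one, hZsa, mul_assoc]
  have hsn : ‖s‖ ≤ 1 / 2 := by
    rw [ContinuousMap.norm_le _ (by norm_num)]
    intro x
    rw [hs, ContinuousMap.mul_apply, ContinuousMap.mul_apply, scal_apply]
    by_cases hx : x ∈ W
    · have h1 : ‖Z x - 1‖ < 1 / 2 := (hWsub hx).2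
      have h2 : ‖((χ x : ℂ) • (1 : D))‖ ≤ 1 := by
        rw [norm_smul, Complex.norm_real, Real.norm_of_nonneg (hχ x).1]
        have : ‖(1 : D)‖ = 1 := norm_one
        rw [this, mul_one]
        exact (hχ x).2
      calc ‖(χ x : ℂ) • (1 : D) * (Z - 1) x * (χ x : ℂ) • (1 : D)‖
          ≤ ‖(χ x : ℂ) • (1 : D)‖ * ‖(Z - 1) x‖ * ‖(χ x : ℂ) • (1 : D)‖ := by
            refine (norm_mul_le _ _).trans ?_
            gcongr
            exact norm_mul_le _ _
        _ ≤ 1 * (1 / 2) * 1 := by
            gcongr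
            exact h1.le
        _ = 1 / 2 := by norm_num
    · rw [hχW x hx]; simp
  have hineq : scal D g * algebraMap ℝ C(X, D) (1 / 2) * scal D g ≤ scal D g * Z * scal D g := by
    have h1 : - algebraMap ℝ C(X, D) (1 / 2) ≤ s :=
      (neg_le_neg (algebraMap_mono _ hsn)).trans hssa.neg_algebraMap_norm_le_self
    have h2 : scal D g * s * scal D g = scal D g * (Z - 1) * scal D g := by
      ext x
      rw [hs]
      simp only [ContinuousMap.mul_apply, scal_apply, smul_mul_assoc, mul_smul_comm, one_mul,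
        mul_one, smul_smul]
      congr 1
      have h3 : ((g x * χ x : ℝ) : ℂ) = (g x : ℂ) := by rw [hgχ]
      push_cast at h3
      calc (g x : ℂ) * ((χ x : ℂ) * (χ x : ℂ) * (g x : ℂ))
          = ((g x : ℂ) * (χ x : ℂ)) * ((g x : ℂ) * (χ x : ℂ)) := by ring
        _ = _ := by rw [h3]
    have h3 := star_left_conjugate_le_conjugate h1 (scal D g)
    rw [star_scal, h2] at h3
    have h4 : scal D g * -algebraMap ℝ C(X, D) (1 / 2) * scal D g
        = scal D g * algebraMap ℝ C(X, D) (1 / 2) * scal D g - scal D g * scal D g := by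
      have h5 : - algebraMap ℝ C(X, D) (1 / 2) = algebraMap ℝ C(X, D) (1 / 2) - 1 := by
        rw [Algebra.algebraMap_eq_smul_one]
        module
      rw [h5, mul_sub, sub_mul, mul_one]
    have h5 : scal D g * (Z - 1) * scal D g = scal D g * Z * scal D g - scal D g * scal D g := by
      rw [mul_sub, sub_mul, mul_one]
    rw [h4, h5] at h3
    simpa using h3
  -- conclusion
  let f : C(X, ℝ) := ⟨fun x => g x * (1 / 2) * g x, by fun_prop⟩
  have hf : scal D f = scal D g * algebraMap ℝ C(X, D) (1 / 2) * scal D g := by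
    ext x
    rw [Algebra.algebraMap_eq_smul_one, mul_smul_comm, mul_one, smul_mul_assoc]
    simp only [ContinuousMap.smul_apply, ContinuousMap.mul_apply, scal_apply, smul_mul_assoc,
      one_mul, smul_smul]
    rw [← Complex.coe_smul, smul_smul]
    congr 1
    show (((g x * (1 / 2) * g x : ℝ)) : ℂ) = _
    push_cast
    ring
  have hfpos : 0 ≤ scal D f := by
    rw [hf]
    have : 0 ≤ algebraMap ℝ C(X, D) (1 / 2) := by
      rw [Algebra.algebraMap_eq_smul_one]
      exact smul_nonneg (by norm_num) zero_le_one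
    have h1 := star_left_conjugate_nonneg this (scal D g)
    rwa [star_scal] at h1
  refine ⟨f, fun x => ?_, fun hf0 => ?_, ?_⟩
  · show 0 ≤ g x * (1 / 2) * g x
    have : g x * (1 / 2) * g x = (1 / 2) * (g x) ^ 2 := by ring
    rw [this]; positivity
  · have h1 : f x₁ = 0 := by rw [hf0]; rfl
    have h2 : g x₁ = 1 := by
      show max (2 * ρ x₁ - 1) 0 = 1
      rw [hρx]; norm_num
    have h3 : f x₁ = g x₁ * (1 / 2) * g x₁ := rfl
    rw [h3, h2] at h1
    norm_num at h1
  · have h1 : ι (scal D f) ≤ ι (scal D g * Z * scal D g) := by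
      rw [← sub_nonneg, ← map_sub]
      rw [← hf] at hineq
      obtain ⟨w, hw⟩ := CStarAlgebra.nonneg_iff_eq_star_mul_self.mp (sub_nonneg.mpr hineq)
      rw [hw, map_mul, map_star]
      exact star_mul_self_nonneg _
    have h2 : 0 ≤ ι (scal D f) := by
      obtain ⟨w, hw⟩ := CStarAlgebra.nonneg_iff_eq_star_mul_self.mp hfpos
      rw [hw, map_mul, map_star]
      exact star_mul_self_nonneg _
    refine (cuntzSub_of_le h2 h1).trans ?_
    rw [hZ, ← compute hα hcov hgW (fun i j hij x hx x' hx' =>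
      hsep i j hij x (hWsub hx).1 x' (hWsub hx').1) a C]
    exact cuntzSub_conj _ _

end Main

end Pool.Agent.V11109.CX
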